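import Pool.Agent.H323.LT.Swap

/-! # One system of rows -/

set_option autoImplicit false

open MeasureTheory Real
open scoped FourierTransform ComplexConjugate

namespace Pool.Agent.H323.LT

open Pool.Agent.H998.LT

theorem hasSum_boolInt {f : Bool × ℤ → ℂ} {a b : ℂ} (h0 : HasSum (fun n : ℤ => f (false, n)) a)
    (h1 : HasSum (fun n : ℤ => f (true, n)) b) : HasSum f (a + b) := by
  have h := HasSum.sum (f := f ∘ (Equiv.boolProdEquivSum ℤ).symm) h0 h1
  exact (Equiv.boolProdEquivSum ℤ).symm.hasSum_iff.1 h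

theorem summable_boolInt {f : Bool × ℤ → ℝ} (h0 : Summable (fun n : ℤ => f (false, n)))
    (h1 : Summable (fun n : ℤ => f (true, n))) : Summable f := by
  have h := Summable.sum (f ∘ (Equiv.boolProdEquivSum ℤ).symm) h0 h1
  exact (Equiv.boolProdEquivSum ℤ).symm.summable_iff.1 h

theorem rows (hP : S_poisson) {g G : ℝ → ℂ} {C : ℝ} (hN : Nice g G C) {T : ℝ} (hT : 0 < T)
    (σ θ : ℝ) {X : Bool × ℤ → ℝ}
    (hX : ∀ p, X p = T * (p.2 + if p.1 then θ else 0) + σ) (γ y : ℝ) :
    (Summable fun p => ‖g (y - X p)‖) ∧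
    (Summable fun k : ℤ => G (k / T + γ) * (1 + e (-(k * θ))) * e (-(k * σ / T)) *
      e ((k / T + γ) * y)) ∧
    (T : ℂ) * ∑' p, e (γ * X p) * g (y - X p) =
      ∑' k : ℤ, G (k / T + γ) * (1 + e (-(k * θ))) * e (-(k * σ / T)) * e ((k / T + γ) * y) := by
  obtain ⟨a1, a2, a3⟩ := hP g G C hN T hT σ γ y
  obtain ⟨b1, -, b3⟩ := hP g G C hN T hT (σ + T * θ) γ y
  have x0 : ∀ n : ℤ, X (false, n) = T * n + σ := fun n => by rw [hX]; simp
  have x1 : ∀ n : ℤ, X (true, n) = T * n + (σ + T * θ) := fun n => by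
    rw [hX]; simp only [if_true]; ring
  have s0 : Summable fun k : ℤ => G (k / T + γ) * e (-(k * σ / T)) * e ((k / T + γ) * y) :=
    Summable.of_norm_bounded a2 fun k => by
      rw [norm_mul, norm_mul, norm_e, norm_e, mul_one, mul_one]
  have s1 : Summable fun k : ℤ => G (k / T + γ) * e (-(k * (σ + T * θ) / T)) *
      e ((k / T + γ) * y) :=
    Summable.of_norm_bounded a2 fun k => by
      rw [norm_mul, norm_mul, norm_e, norm_e, mul_one, mul_one]
  have u0 : Summable fun n : ℤ => e (γ * (T * n + σ)) * g (y - (T * n + σ)) :=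
    Summable.of_norm_bounded a1 fun k => by
      rw [norm_mul, norm_e, one_mul]
  have u1 : Summable fun n : ℤ => e (γ * (T * n + (σ + T * θ))) * g (y - (T * n + (σ + T * θ))) :=
    Summable.of_norm_bounded b1 fun k => by
      rw [norm_mul, norm_e, one_mul]
  have key : ∀ k : ℤ, G (k / T + γ) * (1 + e (-(k * θ))) * e (-(k * σ / T)) *
      e ((k / T + γ) * y) = G (k / T + γ) * e (-(k * σ / T)) * e ((k / T + γ) * y) +
        G (k / T + γ) * e (-(k * (σ + T * θ) / T)) * e ((k / T + γ) * y) := by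
    intro k
    have h : -(k * (σ + T * θ) / T) = -(k * θ) + -(k * σ / T) := by
      field_simp
      ring
    rw [h, e_add]
    ring
  refine ⟨?_, ?_, ?_⟩
  · apply summable_boolInt
    · simp only [x0]; exact a1
    · simp only [x1]; exact b1
  · simp only [key]
    exact s0.add s1
  · have h : HasSum (fun p => e (γ * X p) * g (y - X p))
        (∑' n : ℤ, e (γ * (T * n + σ)) * g (y - (T * n + σ)) +
          ∑' n : ℤ, e (γ * (T * n + (σ + T * θ))) * g (y - (T * n + (σ + T * θ)))) := by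
      apply hasSum_boolInt
      · simp only [x0]; exact u0.hasSum
      · simp only [x1]; exact u1.hasSum
    rw [h.tsum_eq, mul_add, a3, b3, ← s0.tsum_add s1]
    exact tsum_congr fun k => (key k).symm

theorem t_single : S_poisson → S_tsumZ → S_swap → S_single := by
  intro hP hZ hS m hm hmono g G C hN T σ θ hT c hc φ hv1 hv2 X hX y
  obtain ⟨r1, r2, r3⟩ := rows hP hN hT σ θ hX 0 y
  have hT0 : (T : ℂ) ≠ 0 := by exact_mod_cast hT.ne'
  -- the own frequencies
  set F : ℤ → ℂ := fun k => G (k / T + 0) * (1 + e (-(k * θ))) * e (-(k * σ / T)) *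
    e ((k / T + 0) * y) with hF
  obtain ⟨z1, z2⟩ := hZ m hm hmono F r2 (by
    intro k hk hkl
    simp only [hF, add_zero]
    rw [hv1 k hk hkl]
    ring)
  have F0 : F 0 = 2 * G 0 := by
    simp only [hF]
    norm_num [e_zero]
    ring
  have Fl : ∀ l : ℕ, F (m l) + F (-(m l : ℤ)) =
      (1 + e (-(m l * θ))) * e (-(m l * σ / T)) * G (m l / T) * e (m l / T * y)
      + conj ((1 + e (-(m l * θ))) * e (-(m l * σ / T))) * G (-(m l / T)) * e (-(m l / T * y)) := by
    intro l
    simp only [hF, add_zero]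
    rw [map_mul, map_add, map_one, conj_e, conj_e]
    push_cast
    rw [show (-(m l : ℝ) / T) = -(m l / T) by ring,
      show -(-(m l : ℝ) * θ) = - -(m l * θ) by ring,
      show -(-(m l : ℝ) * σ / T) = - -(m l * σ / T) by ring,
      show -((m l : ℝ) / T) * y = -(m l / T * y) by ring]
    ring
  simp only [Fl] at z1 z2
  rw [F0, ← r3] at z2
  have e0 : ∀ p, e (0 * X p) * g (y - X p) = g (y - X p) := fun p => by
    rw [zero_mul, e_zero, one_mul]
  simp only [e0] at z2
  -- the other frequencies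
  have o1 : ∀ l, (T : ℂ) * ∑' p, e (φ l * X p) * g (y - X p) = 2 * (G (φ l) * e (φ l * y)) := by
    intro l
    rw [(rows hP hN hT σ θ hX (φ l) y).2.2, tsum_eq_single 0]
    · norm_num [e_zero]
      ring
    · intro k hk
      rw [(hv2 k hk l).1]
      ring
  have o2 : ∀ l, (T : ℂ) * ∑' p, e (-φ l * X p) * g (y - X p) =
      2 * (G (-φ l) * e (-(φ l * y))) := by
    intro l
    rw [(rows hP hN hT σ θ hX (-φ l) y).2.2, tsum_eq_single 0]
    · norm_num [e_zero]
      ring
    · intro k hk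
      rw [show (k : ℝ) / T + -φ l = k / T - φ l by ring, (hv2 k hk l).2]
      ring
  obtain ⟨w1, w2, w3, w4⟩ := hS (Bool × ℤ) X (fun p => g (y - X p)) r1 c hc φ
  have q1 : Summable fun l => c l * G (φ l) * e (φ l * y) := by
    refine (w2.mul_left ((T : ℂ) / 2)).congr fun l => ?_
    have := o1 l
    linear_combination (c l / 2) * this
  have q2 : Summable fun l => conj (c l) * G (-φ l) * e (-(φ l * y)) := by
    refine (w3.mul_left ((T : ℂ) / 2)).congr fun l => ?_
    have := o2 l
    linear_combination (conj (c l) / 2) * this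
  have p1 : (T : ℂ) * ∑' l, (c l * ∑' p, e (φ l * X p) * g (y - X p)) =
      2 * ∑' l, c l * G (φ l) * e (φ l * y) := by
    rw [← tsum_mul_left, ← tsum_mul_left]
    refine tsum_congr fun l => ?_
    have := o1 l
    linear_combination (c l) * this
  have p2 : (T : ℂ) * ∑' l, (conj (c l) * ∑' p, e (-φ l * X p) * g (y - X p)) =
      2 * ∑' l, conj (c l) * G (-φ l) * e (-(φ l * y)) := by
    rw [← tsum_mul_left, ← tsum_mul_left]
    refine tsum_congr fun l => ?_
    have := o2 l
    linear_combination (conj (c l)) * this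
  refine ⟨?_, z1, q1.add q2, ?_⟩
  · refine (w1.mul_left T).congr fun p => ?_
    rw [Complex.ofReal_mul, mul_assoc, norm_mul (T : ℂ), Complex.norm_real, Real.norm_eq_abs,
      abs_of_pos hT]
  · have h : ∑' p : Bool × ℤ, ((T * (1 - ∑' l, (c l * e (φ l * X p)).re) : ℝ) : ℂ) *
        g (y - X p) = (T : ℂ) * ∑' p, (((1 - ∑' l, (c l * e (φ l * X p)).re : ℝ)) : ℂ) *
          g (y - X p) := by
      rw [← tsum_mul_left]
      refine tsum_congr fun p => ?_
      rw [Complex.ofReal_mul, mul_assoc]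
    rw [h, w4, q1.tsum_add q2]
    linear_combination z2 - p1 / 2 - p2 / 2

end Pool.Agent.H323.LT
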