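import Pool.Agent.H998.LT.Defs

/-! # Interchange of summations -/

set_option autoImplicit false

open MeasureTheory Real
open scoped FourierTransform ComplexConjugate

namespace Pool.Agent.H323.LT

open Pool.Agent.H998.LT

theorem norm_e (t : ℝ) : ‖e t‖ = 1 := by
  unfold e
  rw [show (2 * π * t * Complex.I : ℂ) = ((2 * π * t : ℝ) : ℂ) * Complex.I by push_cast; ring]
  exact Complex.norm_exp_ofReal_mul_I _

theorem conj_e (t : ℝ) : conj (e t) = e (-t) := by
  unfold e
  rw [← Complex.exp_conj]
  congr 1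
  simp only [map_mul, Complex.conj_ofReal, Complex.conj_I, map_ofNat, Complex.ofReal_neg]
  ring

theorem e_add (s t : ℝ) : e (s + t) = e s * e t := by
  unfold e
  rw [← Complex.exp_add]
  congr 1
  push_cast
  ring

theorem e_zero : e 0 = 1 := by simp [e]

theorem e_int (n : ℤ) : e n = 1 := by
  unfold e
  rw [show (2 * π * ((n : ℝ) : ℂ) * Complex.I : ℂ) = n * (2 * π * Complex.I) by push_cast; ring]
  exact Complex.exp_int_mul_two_pi_mul_I n

theorem t_swap : S_swap := by
  intro P _ X g hg c hc φ
  -- the double families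
  have hF1 : Summable fun q : ℕ × P => c q.1 * (e (φ q.1 * X q.2) * g q.2) := by
    refine Summable.of_norm_bounded (g := fun q : ℕ × P => ‖c q.1‖ * ‖g q.2‖)
      (hc.mul_of_nonneg hg (fun _ => norm_nonneg _) fun _ => norm_nonneg _) fun q => ?_
    rw [norm_mul, norm_mul, norm_e, one_mul]
  have hF2 : Summable fun q : ℕ × P => conj (c q.1) * (e (-φ q.1 * X q.2) * g q.2) := by
    refine Summable.of_norm_bounded (g := fun q : ℕ × P => ‖c q.1‖ * ‖g q.2‖)
      (hc.mul_of_nonneg hg (fun _ => norm_nonneg _) fun _ => norm_nonneg _) fun q => ?_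
    rw [norm_mul, norm_mul, norm_e, one_mul, RCLike.norm_conj]
  have hs1 : ∀ p, Summable fun l => c l * e (φ l * X p) := fun p =>
    Summable.of_norm_bounded (g := fun l => ‖c l‖) hc fun l => by rw [norm_mul, norm_e, mul_one]
  have hs2 : ∀ p, Summable fun l => conj (c l) * e (-φ l * X p) := fun p =>
    Summable.of_norm_bounded (g := fun l => ‖c l‖) hc fun l => by
      rw [norm_mul, norm_e, mul_one, RCLike.norm_conj]
  have hre : ∀ p, ((∑' l, (c l * e (φ l * X p)).re : ℝ) : ℂ) =
      1 / 2 * ∑' l, c l * e (φ l * X p) + 1 / 2 * ∑' l, conj (c l) * e (-φ l * X p) := by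
    intro p
    rw [Complex.ofReal_tsum, ← tsum_mul_left, ← tsum_mul_left, ← Summable.tsum_add
      ((hs1 p).mul_left _) ((hs2 p).mul_left _)]
    refine tsum_congr fun l => ?_
    rw [Complex.re_eq_add_conj, map_mul, conj_e, neg_mul]
    ring
  have hb : ∀ p, |∑' l, (c l * e (φ l * X p)).re| ≤ ∑' l, ‖c l‖ := by
    intro p
    have h1 : ∀ l, ‖(c l * e (φ l * X p)).re‖ ≤ ‖c l‖ := fun l => by
      rw [Real.norm_eq_abs]
      refine (Complex.abs_re_le_norm _).trans ?_
      rw [norm_mul, norm_e, mul_one]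
    have h2 : Summable fun l => ‖(c l * e (φ l * X p)).re‖ :=
      Summable.of_nonneg_of_le (fun _ => norm_nonneg _) h1 hc
    rw [← Real.norm_eq_abs]
    exact (norm_tsum_le_tsum_norm h2).trans (h2.tsum_le_tsum h1 hc)
  have e1 : ∀ l, ∑' p, c l * (e (φ l * X p) * g p) = c l * ∑' p, e (φ l * X p) * g p := fun l =>
    tsum_mul_left
  have e2 : ∀ l, ∑' p, conj (c l) * (e (-φ l * X p) * g p) =
      conj (c l) * ∑' p, e (-φ l * X p) * g p := fun l => tsum_mul_left
  refine ⟨?_, ?_, ?_, ?_⟩
  · refine Summable.of_nonneg_of_le (fun _ => norm_nonneg _) (fun p => ?_)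
      (hg.mul_left (1 + ∑' l, ‖c l‖))
    rw [norm_mul, Complex.norm_real, Real.norm_eq_abs]
    refine mul_le_mul_of_nonneg_right ?_ (norm_nonneg _)
    refine (abs_sub _ _).trans ?_
    rw [abs_one]
    exact add_le_add le_rfl (hb p)
  · have := hF1.prod
    simp only [e1] at this
    exact this
  · have := hF2.prod
    simp only [e2] at this
    exact this
  · have hg' : Summable g := hg.of_norm
    have t1 : Summable fun p => ∑' l, c l * (e (φ l * X p) * g p) :=
      hF1.prod_symm.prod
    have t2 : Summable fun p => ∑' l, conj (c l) * (e (-φ l * X p) * g p) :=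
      hF2.prod_symm.prod
    have c1 : ∑' l, (c l * ∑' p, e (φ l * X p) * g p) =
        ∑' p, ∑' l, c l * (e (φ l * X p) * g p) := by
      simp only [← e1]
      exact (Summable.tsum_comm hF1.prod_symm)
    have c2 : ∑' l, (conj (c l) * ∑' p, e (-φ l * X p) * g p) =
        ∑' p, ∑' l, conj (c l) * (e (-φ l * X p) * g p) := by
      simp only [← e2]
      exact (Summable.tsum_comm hF2.prod_symm)
    rw [c1, c2, ← tsum_mul_left, ← tsum_mul_left, ← Summable.tsum_sub hg' (t1.mul_left _),
      ← Summable.tsum_sub (hg'.sub (t1.mul_left _)) (t2.mul_left _)]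
    refine tsum_congr fun p => ?_
    rw [Complex.ofReal_sub, hre p, Complex.ofReal_one]
    have r1 : ∑' l, c l * (e (φ l * X p) * g p) = (∑' l, c l * e (φ l * X p)) * g p := by
      rw [← tsum_mul_right]
      exact tsum_congr fun l => by ring
    have r2 : ∑' l, conj (c l) * (e (-φ l * X p) * g p) =
        (∑' l, conj (c l) * e (-φ l * X p)) * g p := by
      rw [← tsum_mul_right]
      exact tsum_congr fun l => by ring
    rw [r1, r2]
    ring

end Pool.Agent.H323.LT
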